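import Pool.Agent.Helper70.TW.Goals

/-!
# Packet TW-QNUM (project TW of helper70, MP_c7dfba_nt): numerical condition for quartic forms
-/

set_option autoImplicit false

namespace Pool.Agent.Helper13.TW

open MvPolynomial Pool.Agent.Helper70.BU Pool.Agent.Helper70.TW

/-- total degree in the `λ`'s -/
def dl (m : Q4) : ℕ := ∑ k, (q4a m k + q4b m k)

lemma card_Q4 : Fintype.card Q4 = 32 := by decide +kernel

lemma sum_dl : ∑ m : Q4, dl m = 104 := by decide +kernel

lemma card_eq0 : (Finset.univ.filter (fun m : Q4 => q4a m 0 = q4b m 0)).card = 8 := by decide +kernel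

lemma card_eq1 : (Finset.univ.filter (fun m : Q4 => q4a m 1 = q4b m 1)).card = 8 := by decide +kernel

lemma sum_eq0 : ∑ m ∈ Finset.univ.filter (fun m : Q4 => q4a m 0 = q4b m 0), dl m = 24 := by
  decide +kernel

lemma sum_eq1 : ∑ m ∈ Finset.univ.filter (fun m : Q4 => q4a m 1 = q4b m 1), dl m = 24 := by
  decide +kernel

/-- the index set -/
abbrev La (e s c : ℕ) : Type :=
  (Σ l : (Σ _ : Q4, Fin e), Fin ((∑ k, (q4a l.1 k + q4b l.1 k)) * s + c + 1))

/-- Counting the elements of the index set over a set of exponents. -/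
lemma card_La (e s c : ℕ) (p : Q4 → Prop) [DecidablePred p] (a b : ℕ)
    (ha : (Finset.univ.filter p).card = a)
    (hb : ∑ m ∈ Finset.univ.filter p, dl m = b) :
    (Finset.univ.filter (fun l : La e s c => p l.1.1)).card = e * (b * s + a * (c + 1)) := by
  rw [Finset.card_filter, Fintype.sum_sigma, Fintype.sum_sigma]
  have h1 : ∀ m : Q4, ∑ j : Fin e, ∑ _i : Fin ((∑ k, (q4a m k + q4b m k)) * s + c + 1),
      (if p m then 1 else 0) = if p m then e * (dl m * s + (c + 1)) else 0 := by
    intro m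
    by_cases h : p m
    · simp only [h, if_true, Finset.sum_const, Finset.card_univ, Fintype.card_fin, smul_eq_mul,
        mul_one]
      rfl
    · simp [h]
  rw [Finset.sum_congr rfl (fun m _ => h1 m), ← Finset.sum_filter, ← Finset.mul_sum,
    Finset.sum_add_distrib, ← Finset.sum_mul, hb, Finset.sum_const, ha, smul_eq_mul]

lemma bn_eq (n e s : ℕ) (k : Fin 2) :
    bn (fun x : ((Fin n × Fin 2) × Fin e) × Fin (s + 1) => x.1.1.2) k = n * e * (s + 1) := by
  unfold bn
  rw [Finset.card_filter]
  have h1 : ∑ x : ((Fin n × Fin 2) × Fin e) × Fin (s + 1), (if x.1.1.2 = k then 1 else 0) =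
      ∑ _a : Fin n, ∑ b : Fin 2, ∑ _c : Fin e, ∑ _d : Fin (s + 1), (if b = k then 1 else 0) := by
    simp only [Fintype.sum_prod_type]
  have h2 : ∀ b : Fin 2, ∑ _c : Fin e, ∑ _d : Fin (s + 1), (if b = k then 1 else 0) =
      if b = k then e * (s + 1) else 0 := by
    intro b
    by_cases h : b = k <;> simp [h]
  rw [h1]
  simp only [h2]
  simp
  ring

theorem qnum : COEF → QNUM := by
  intro hC n e c hn he
  obtain ⟨s, hs⟩ : ∃ s, s = 16 * (c + 1) := ⟨_, rfl⟩
  have hT : Fintype.card (La e s c) = e * (104 * s + 32 * (c + 1)) := by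
    have h := card_La e s c (fun _ => True) 32 104 (by simpa using card_Q4) (by simpa using sum_dl)
    rw [← h, ← Finset.card_univ]
    simp
  have hT2 : Fintype.card (La e s c) = 106 * (e * s) := by
    rw [hT, hs]; ring
  have hA : (Finset.univ.filter (fun l : La e s c =>
      ((q4a l.1.1 1 : ℤ) - (q4b l.1.1 1 : ℤ)) = 0)).card = e * (24 * s + 8 * (c + 1)) := by
    rw [← card_La e s c (fun m => q4a m 1 = q4b m 1) 8 24 card_eq1 sum_eq1]
    exact congrArg Finset.card (Finset.filter_congr fun l _ => by rw [sub_eq_zero, Nat.cast_inj])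
  have hB : (Finset.univ.filter (fun l : La e s c =>
      ((q4a l.1.1 0 : ℤ) - (q4b l.1.1 0 : ℤ)) = 0)).card = e * (24 * s + 8 * (c + 1)) := by
    rw [← card_La e s c (fun m => q4a m 0 = q4b m 0) 8 24 card_eq0 sum_eq0]
    exact congrArg Finset.card (Finset.filter_congr fun l _ => by rw [sub_eq_zero, Nat.cast_inj])
  have hne : ∀ l : La e s c,
      (fun k : Fin 2 => ((q4a l.1.1 k : ℤ) - (q4b l.1.1 k : ℤ))) ≠ 0 := by
    intro l h0
    have h1 := congrFun h0 0
    have h2 := congrFun h0 1
    simp only [Pi.zero_apply] at h1 h2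
    rw [sub_eq_zero, Nat.cast_inj] at h1 h2
    rcases l.1.1.2.2 with h | ⟨-, h⟩
    · have h5 : (q4b l.1.1 0) < (q4a l.1.1 0) := h
      exact absurd h1.symm h5.ne
    · have h5 : (q4b l.1.1 1) < (q4a l.1.1 1) := h
      exact absurd h2.symm h5.ne
  have hes : 16 * (e * (c + 1)) = e * s := by rw [hs]; ring
  have hAe : e * (24 * s + 8 * (c + 1)) = 24 * (e * s) + 8 * (e * (c + 1)) := by ring
  have hpos : 1 ≤ e * (c + 1) := Nat.mul_pos he (Nat.succ_pos c)
  have hN : 53 * (e * s) + 53 ≤ n * e * (s + 1) := by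
    calc 53 * (e * s) + 53 ≤ 53 * (e * s) + 53 * e := by omega
      _ = 53 * e * (s + 1) := by ring
      _ ≤ n * e * (s + 1) := Nat.mul_le_mul_right _ (Nat.mul_le_mul_right _ hn)
  obtain ⟨j, hj⟩ : ∃ j, j = 53 * (e * s) := ⟨_, rfl⟩
  have hjT : j ≤ Fintype.card (La e s c) := by omega
  have hjT1 : j + 1 ≤ Fintype.card (La e s c) := by omega
  have key := hC (La e s c) (fun l k => ((q4a l.1.1 k : ℤ) - (q4b l.1.1 k : ℤ)))
    (e * (24 * s + 8 * (c + 1))) (e * (24 * s + 8 * (c + 1))) hne hA hB j (by omega) (by omega)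
  rcases key with h | h
  · refine ⟨s, ![j, Fintype.card (La e s c) - j], ?_, ?_, h⟩
    · intro k
      rw [bn_eq]
      fin_cases k
      · show j < _
        omega
      · show Fintype.card (La e s c) - j < _
        omega
    · rw [Fin.sum_univ_two]
      show j + (Fintype.card (La e s c) - j) = Fintype.card (La e s c)
      omega
  · refine ⟨s, ![j + 1, Fintype.card (La e s c) - (j + 1)], ?_, ?_, h⟩
    · intro k
      rw [bn_eq]
      fin_cases k
      · show j + 1 < _
        omega
      · show Fintype.card (La e s c) - (j + 1) < _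
        omega
    · rw [Fin.sum_univ_two]
      show (j + 1) + (Fintype.card (La e s c) - (j + 1)) = Fintype.card (La e s c)
      omega

end Pool.Agent.Helper13.TW
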